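import Pool.Agent.CEC.Main

/-!
# MP_854819_co: even circuit decompositions of 4-regular Cayley graphs

A connected 4-regular Cayley graph of a finite group has an even circuit decomposition if and only if
it is not the complete graph on five vertices.
-/

open Pool.Agent.CEC

namespace Pool.Agent.Results.MP_854819_co.CayleyGraphs

theorem result (Γ : Type) [Group Γ] [Finite Γ] (S : Set Γ) (hinv : ∀ s ∈ S, s⁻¹ ∈ S)
    (h1 : (1 : Γ) ∉ S) (hS : S.ncard = 4) (hgen : Subgroup.closure S = ⊤) :
    HasECD (Cay S) ↔ Nat.card Γ ≠ 5 :=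
  ⟨fun h h5 => not_card5 S h1 hS h5 h, st_fin Γ S hinv h1 hS hgen⟩

end Pool.Agent.Results.MP_854819_co.CayleyGraphs
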