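import Pool.Agent.ECH.Main

/-!
# MP_854819_co: even circuit decompositions of Hamilton decomposable graphs

A graph on `n` vertices which is the union of two edge-disjoint Hamilton cycles has an even circuit
decomposition if `n` is not `1` modulo four.
-/

open Pool.Agent.CEC

namespace Pool.Agent.Results.MP_854819_co.HamiltonDecomposable

theorem result (V : Type) [Fintype V] [DecidableEq V] (G : SimpleGraph V) (v w : V)
    (A : G.Walk v v) (B : G.Walk w w) (hA : A.IsHamiltonianCycle) (hB : B.IsHamiltonianCycle)
    (hAB : ∀ e ∈ A.edges, e ∉ B.edges) (hG : ∀ e ∈ G.edgeSet, e ∈ A.edges ∨ e ∈ B.edges)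
    (hn : Fintype.card V % 4 ≠ 1) : HasECD G :=
  Pool.Agent.ECH.st_fin V G v w A B hA hB hAB hG hn

end Pool.Agent.Results.MP_854819_co.HamiltonDecomposable
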