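import Pool.Agent.ECM.Tk
import Pool.Agent.ECM.Ex
import Pool.Agent.ECM.Ho
import Pool.Agent.ECM.Tr
import Pool.Agent.ECM.Tg
import Pool.Agent.ECM.Nh
import Pool.Agent.ECM.Au
import Pool.Agent.ECM.Ct
import Pool.Agent.ECM.Pr
import Pool.Agent.ECM.Nb
import Pool.Agent.ECM.Pf
import Pool.Agent.ECM.Eq
import Pool.Agent.ECM.Sg
import Pool.Agent.ECM.Hm
import Pool.Agent.ECM.Fn
import Pool.Agent.ECH.Iv
import Pool.Agent.ECH.Mx
import Pool.Agent.ECH.Sm
import Pool.Agent.ECH.Qe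
import Pool.Agent.ECH.Asm

/-!
# MP_854819_co: even circuit decompositions, Hamilton decomposable graphs, `n = 1` modulo four

Let `G` be the union of two edge-disjoint Hamilton cycles `A`, `B` on `n` vertices, `n = 1` modulo
four. If the permutation `σ` which maps the `i`-th vertex of `A` to the `i`-th vertex of `B` does not
have the sign `(-1) ^ ((n - 1) / 4)` then `G` has an even circuit decomposition.
-/

open Pool.Agent.CEC

namespace Pool.Agent.Results.MP_854819_co.HamiltonSign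

theorem result (V : Type) [Fintype V] [DecidableEq V] (G : SimpleGraph V) (v w : V)
    (A : G.Walk v v) (B : G.Walk w w) (hA : A.IsHamiltonianCycle) (hB : B.IsHamiltonianCycle)
    (hAB : ∀ e ∈ A.edges, e ∉ B.edges) (hG : ∀ e ∈ G.edgeSet, e ∈ A.edges ∨ e ∈ B.edges)
    (hn : Fintype.card V % 4 = 1) (σ : Equiv.Perm V)
    (hσ : ∀ i, i < Fintype.card V → B.getVert i = σ (A.getVert i))
    (hsign : Equiv.Perm.sign σ ≠ (-1) ^ ((Fintype.card V - 1) / 4)) : HasECD G :=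
  have hTr := ECM.thm_Tr ECM.thm_Tk ECM.thm_Ex
  have hNh := ECM.thm_Nh (ECM.thm_Tg (ECM.thm_Od hTr ECM.thm_Ho))
  have hPf := ECM.thm_Pf hTr ECM.thm_Ho hNh (ECM.thm_Ct ECM.thm_Au) ECM.thm_Pr ECM.thm_Nb
  ECM.thm_Fn hPf ECM.thm_Eq ECM.thm_Sg ECM.thm_Hm ECH.thm_Qe
    (ECH.thm_Asm (ECH.thm_Mx ECH.thm_Iv) ECH.thm_Qe ECH.thm_Sm)
    V G v w A B hA hB hAB hG hn σ hσ hsign

end Pool.Agent.Results.MP_854819_co.HamiltonSign
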