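import Pool.Agent.ECM.Tk
import Pool.Agent.ECT.ExT
import Pool.Agent.ECT.HoT
import Pool.Agent.ECT.TrT
import Pool.Agent.ECT.TgT
import Pool.Agent.ECT.BaT
import Pool.Agent.ECT.NhT
import Pool.Agent.ECT.AuT
import Pool.Agent.ECT.CtT
import Pool.Agent.ECT.PrT
import Pool.Agent.ECT.NbT
import Pool.Agent.ECT.PfT
import Pool.Agent.ECT.QeT
import Pool.Agent.ECT.AsT
import Pool.Agent.ECT.HmT
import Pool.Agent.ECT.FnT
import Pool.Agent.ECH.Iv
import Pool.Agent.ECH.Mx
import Pool.Agent.ECH.Ham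

/-!
# MP_854819_co: even circuit decompositions, a Hamiltonian cycle and two cycles

Let `G` be the union of a Hamiltonian cycle `A` and of two vertex-disjoint cycles `B1`, `B2` which
together contain all vertices and have no edge in common with `A`. If the length of `B1` is `3` and
the length of `B2` is `2` modulo four then `G` has an even circuit decomposition.
-/

open Pool.Agent.CEC

namespace Pool.Agent.Results.MP_854819_co.HamiltonTwoCycles

theorem result (V : Type) [Fintype V] [DecidableEq V] (G : SimpleGraph V) (u v w : V)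
    (A : G.Walk u u) (B1 : G.Walk v v) (B2 : G.Walk w w) (hA : A.IsHamiltonianCycle)
    (hB1 : B1.IsCycle) (hB2 : B2.IsCycle) (hd : ∀ x ∈ B1.support, x ∉ B2.support)
    (hc : ∀ x, x ∈ B1.support ∨ x ∈ B2.support)
    (hAB : ∀ e ∈ A.edges, e ∉ B1.edges ∧ e ∉ B2.edges)
    (hG : ∀ e ∈ G.edgeSet, e ∈ A.edges ∨ e ∈ B1.edges ∨ e ∈ B2.edges)
    (h1 : B1.length % 4 = 3) (h2 : B2.length % 4 = 2) : HasECD G :=
  have hTr := ECT.thm_TrT ECM.thm_Tk ECT.thm_ExT
  have hNh := ECT.thm_NhT (ECT.thm_TgT (ECT.thm_EvT hTr ECT.thm_HoT)) ECT.thm_BaT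
  have hPf := ECT.thm_PfT hTr ECT.thm_HoT hNh (ECT.thm_CtT ECT.thm_AuT) ECT.thm_PrT ECT.thm_NbT
  ECT.thm_FnT hPf ECT.thm_QeT (ECT.thm_AsT (ECH.thm_Mx ECH.thm_Iv)) ECT.thm_HmT ECH.thm_Ham
    V G u v w A B1 B2 hA hB1 hB2 hd hc hAB hG h1 h2

end Pool.Agent.Results.MP_854819_co.HamiltonTwoCycles
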